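import Pool.Agent.Helper38.IA.StN
import Pool.Agent.Helper85.IA.Basic

/-!
# Project IA, part N, module NUB (union bound)
-/

set_option autoImplicit false

namespace Pool.Agent.Helper81.IA38

open Finset Pool.Agent.Helper93.IA Pool.Agent.Helper17.IAN Pool.Agent.Helper38.IA

/-- NUB. -/
theorem hNUB : StNUB := by
  classical
  intro α β γ K _ _ _ _ _ _ _ x p B hx0 hx1 hB hK
  by_contra hcon
  push Not at hcon
  have w0 : ∀ e u, 0 ≤ wt x e u := by
    intro e u
    cases u with
    | none => simp only [wt]; linarith [hx1 e.1 e.2]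
    | some c => exact hx0 e.1 e.2 c
  have w1 : ∀ e : α × β, ∑ u, wt x e u = 1 := by
    intro e
    rw [Fintype.sum_option]
    simp [wt]
  have h1 : Ex (wt x) (fun _ => 1) = 1 := Pool.Agent.Helper85.IA.Ex_one w1
  have h2 : Ex (wt x) (fun _ => 1) ≤
      Ex (wt x) (fun σ => ∑ k, (if B k σ then (1 : ℝ) else 0)) := by
    unfold Ex
    apply Finset.sum_le_sum
    intro σ _
    by_cases hσ : ∀ e, wt x e (σ e) ≠ 0
    · obtain ⟨k, hk⟩ := hcon σ hσ
      apply mul_le_mul_of_nonneg_left _ (Finset.prod_nonneg fun e _ => w0 e _)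
      have h3 : (if B k σ then (1 : ℝ) else 0) ≤ ∑ k, (if B k σ then (1 : ℝ) else 0) :=
        Finset.single_le_sum (f := fun k => if B k σ then (1 : ℝ) else 0)
          (fun i _ => by
            by_cases h : B i σ
            · simp [h]
            · simp [h]) (Finset.mem_univ k)
      rw [if_pos hk] at h3
      exact h3
    · push Not at hσ
      obtain ⟨e, he⟩ := hσ
      rw [Finset.prod_eq_zero (Finset.mem_univ e) he]
      simp
  rw [h1, Pool.Agent.Helper85.IA.Ex_sum] at h2
  have h4 : ∑ k, Ex (wt x) (fun σ => if B k σ then (1 : ℝ) else 0) ≤ Fintype.card K * p := by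
    have h5 : ∀ k ∈ (univ : Finset K), Ex (wt x) (fun σ => if B k σ then (1 : ℝ) else 0) ≤ p := by
      intro k _
      have h6 := hB k
      unfold Pr at h6
      convert h6 using 3
    have h7 := Finset.sum_le_card_nsmul univ _ p h5
    rwa [nsmul_eq_mul, Finset.card_univ] at h7
  linarith

end Pool.Agent.Helper81.IA38
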